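import Pool.Agent.V11124.SK.Main

/-! Optimality of sketch-and-solve with a random orthonormal embedding among all algorithms that
use a random embedding: the lower bound of Q1, for the real and the complex field. -/

open Matrix MeasureTheory ProbabilityTheory Module
open scoped ENNReal RealInnerProductSpace

namespace Pool.Agent.Results.MP_467638_an.SketchOpt

open Pool.Agent.V11124.SK Pool.Agent.V11124.SK.Stmt

/-- Q1, positive answer, real field (`α = 1`) and complex field (`α = 0`). -/
theorem result.{u} :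
    (∀ n l : ℕ, 1 ≤ l → l ≤ n → ∀ (S : Type u) [MeasurableSpace S] (P : Measure S)
      [IsProbabilityMeasure P] (Ω : S → Matrix (Fin n) (Fin l) ℝ), Measurable Ω →
      (∀ᵐ s ∂P, (Ω s).rank = l) →
      ∀ d p r : ℕ, 1 ≤ p → r ≤ d → r + 1 < l →
      ∀ alg : Matrix (Fin n) (Fin l) ℝ × Matrix (Fin l) (Fin d) ℝ × Matrix (Fin l) (Fin p) ℝ →
        Matrix (Fin d) (Fin p) ℝ, Measurable alg →
      ENNReal.ofReal (1 + ((n : ℝ) - l) / ((n : ℝ) - r) * (r / ((l : ℝ) - r - 1))) ≤
        worst P Ω alg r) ∧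
    (∀ n l : ℕ, 1 ≤ l → l ≤ n → ∀ (S : Type u) [MeasurableSpace S] (P : Measure S)
      [IsProbabilityMeasure P] (Ω : S → Matrix (Fin n) (Fin l) ℂ), Measurable Ω →
      (∀ᵐ s ∂P, (Ω s).rank = l) →
      ∀ d p r : ℕ, 1 ≤ p → r ≤ d → r < l →
      ∀ alg : Matrix (Fin n) (Fin l) ℂ × Matrix (Fin l) (Fin d) ℂ × Matrix (Fin l) (Fin p) ℂ →
        Matrix (Fin d) (Fin p) ℂ, Measurable alg →
      ENNReal.ofReal (1 + ((n : ℝ) - l) / ((n : ℝ) - r) * (r / ((l : ℝ) - r))) ≤
        worst P Ω alg r) := by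
  constructor
  · intro n l hl hln S _ P _ Ω hΩ _ d p r hp hrd hrl alg halg
    obtain ⟨k, rfl⟩ := Nat.exists_eq_add_of_le hln
    have hlr : (r : ℝ) + 1 < l := by exact_mod_cast hrl
    have h := lower_generic (K := ℝ) (OrthonormalBasis.singleton (Fin 1) ℝ) (δ := 1) zero_le_one
      (by
        intro z
        simp [OrthonormalBasis.singleton_apply])
      (by simp; linarith) (by linarith) hrd hp halg (P := P) hΩ
    refine le_trans (le_of_eq ?_) h
    congr 1
    push_cast
    simp
  · intro n l hl hln S _ P _ Ω hΩ _ d p r hp hrd hrl alg halg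
    obtain ⟨k, rfl⟩ := Nat.exists_eq_add_of_le hln
    have hlr : (r : ℝ) < l := by exact_mod_cast hrl
    have h := lower_generic (K := ℂ) Complex.orthonormalBasisOneI (δ := 0) le_rfl
      (by
        intro z
        simp [Complex.coe_orthonormalBasisOneI, Fin.sum_univ_two])
      (by simp; linarith) (by linarith) hrd hp halg (P := P) hΩ
    refine le_trans (le_of_eq ?_) h
    congr 1
    push_cast
    have hne : (l : ℝ) - r ≠ 0 := by linarith
    have e : (r : ℝ) / ((l : ℝ) - r) = 2 * (r / (2 * ((l : ℝ) - r))) := by field_simp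
    simp [← e]

end Pool.Agent.Results.MP_467638_an.SketchOpt
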